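import Pool.Agent.Q283.TQ.Fin
import Pool.Agent.Y703.CT.T1d

/-!
# Elementary form of the symbols and of the constant; the arithmetic conclusion
-/

set_option autoImplicit false
set_option linter.unusedSectionVars false

open scoped Classical

namespace Q283.TQ

open Filter Topology Finset
open Pool.Agent.Y703.CX
open Pool.Agent.Y703.CT (Cls NoSplit Base WD EQ IsL ThreeUnit Triv3 tamProd tors fin_all)
open Pool.Agent.Y692.QS
open Pool.Agent.Y715.T.Rec (cs nn)
open Pool.Agent.Y715.T.RecG (Pq)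
open Pool.Agent.Y333.CX (pp_spec dvd_nat)
open Pool.Agent.W97.MT (IsGloballyMinimal)
open Pool.Agent.Y700 (Omega)

/-- a primitive cube root of unity modulo `p` -/
noncomputable def rt (p : ℕ) : ZMod p := if h : ∃ g : ZMod p, g ^ 2 + g + 1 = 0 then h.choose else 0

/-- the cubic logarithm -/
noncomputable def lg (p n : ℕ) : ZMod 3 :=
  if h : ∃ c : ZMod 3, (n : ZMod p) ^ ((p - 1) / 3) = rt p ^ c.val then h.choose else 0

theorem lg_eq {p : ℕ} (hp : p.Prime) (h1 : p % 3 = 1) : ∃ ε : ZMod 3, ε * ε = 1 ∧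
    ∀ n : ℕ, ¬ p ∣ n → lg p n = ε * lam p n := by
  have := Fact.mk hp
  obtain ⟨hq, hn⟩ := pp_spec hp h1
  have hp3 : p ≠ 3 := by rintro rfl; omega
  have h3 : (3 : ZMod p) ≠ 0 := Pool.Agent.Y692.QS.three_ne hp3
  set z := zt p (pp p) with hz
  have hzz : z * z = -1 - z := zt_sq hn
  have hex : ∃ g : ZMod p, g ^ 2 + g + 1 = 0 := ⟨z, by linear_combination hzz⟩
  have hrt : rt p ^ 2 + rt p + 1 = 0 := by
    unfold rt
    rw [dif_pos hex]
    exact hex.choose_spec
  have hlam : ∀ n : ℕ, ¬ p ∣ n → (n : ZMod p) ^ ((p - 1) / 3) = z ^ (lam p n).val := by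
    intro n hpn
    have hnd : ¬ pp p ∣ (n : Ei) := fun h => hpn ((dvd_nat hp h1 n).1 h)
    obtain ⟨c, hc⟩ := Pool.Agent.Y715.T.RecG.ex_cs hq.prime hq.norm hnd
    have hcs : lam p n = c := Pool.Agent.Y715.T.RecG.cs_of hq.prime hq.norm hc
    have h4 := (red_zero hn).2 hc
    have hnn : nn (pp p) = (p - 1) / 3 := by
      unfold nn
      rw [hn, Int.natAbs_natCast]
    rw [map_sub, map_pow, map_pow, map_natCast, hnn] at h4
    have h5 : red hn w = z := hom_w _ _
    rw [h5] at h4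
    rw [hcs]
    exact sub_eq_zero.1 h4
  have hinj : ∀ {t : ZMod p}, t * t = -1 - t → ∀ {c d : ZMod 3}, t ^ c.val = t ^ d.val → c = d :=
    fun ht _ _ h => Q283.TC.zp_inj ht h3 h
  have hrr : rt p * rt p = -1 - rt p := by linear_combination hrt
  have hfac : (rt p - z) * (rt p - z ^ 2) = 0 := by
    linear_combination hrt + (-rt p + z - 1) * hzz
  rcases mul_eq_zero.1 hfac with h4 | h4
  · refine ⟨1, by decide, fun n hpn => ?_⟩
    have h5 := hlam n hpn
    rw [← sub_eq_zero.1 h4] at h5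
    have hex2 : ∃ c : ZMod 3, (n : ZMod p) ^ ((p - 1) / 3) = rt p ^ c.val := ⟨_, h5⟩
    unfold lg
    rw [dif_pos hex2, one_mul]
    exact hinj hrr (hex2.choose_spec.symm.trans h5)
  · refine ⟨-1, by decide, fun n hpn => ?_⟩
    have h5 := hlam n hpn
    have h6 : ∀ c : ZMod 3, z ^ c.val = rt p ^ (-c).val := by
      intro c
      rw [sub_eq_zero.1 h4]
      have hz3 : z ^ 3 = 1 := z_cube hzz
      have hc : c = 0 ∨ c = 1 ∨ c = 2 := by revert c; decide
      rcases hc with rfl | rfl | rfl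
      · simp
      · have e1 : (1 : ZMod 3).val = 1 := rfl
        have e2 : (-1 : ZMod 3).val = 2 := rfl
        rw [e1, e2]
        linear_combination (-z) * hz3
      · have e1 : (2 : ZMod 3).val = 2 := rfl
        have e2 : (-2 : ZMod 3).val = 1 := rfl
        rw [e1, e2]
        ring
    rw [h6] at h5
    have hex2 : ∃ c : ZMod 3, (n : ZMod p) ^ ((p - 1) / 3) = rt p ^ c.val := ⟨_, h5⟩
    unfold lg
    rw [dif_pos hex2, neg_one_mul]
    exact hinj hrr (hex2.choose_spec.symm.trans h5)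

/-- the system of `D` with the elementary logarithm -/
def NSe (D : ℕ) (a b : ℕ → ZMod 3) : Prop :=
  ∀ g : ℕ → ZMod 3,
    (∀ p ∈ D.primeFactors, p % 3 = 1 →
      ∑ r ∈ D.primeFactors, (D.factorization r : ZMod 3) * lg p r * (g r - g p) = a p * g p) →
    ∑ r ∈ D.primeFactors, (D.factorization r : ZMod 3) * b r * g r = 0 →
    ∀ p ∈ D.primeFactors, g p = 0

/-- the signs -/
noncomputable def sg (p : ℕ) : ZMod 3 :=
  if h : p.Prime ∧ p % 3 = 1 then (lg_eq h.1 h.2).choose else 1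

theorem sg_sq (p : ℕ) : sg p * sg p = 1 := by
  unfold sg
  split_ifs with h
  · exact (lg_eq h.1 h.2).choose_spec.1
  · decide

theorem sg_lg {p : ℕ} (hp : p.Prime) (h1 : p % 3 = 1) {n : ℕ} (hn : ¬ p ∣ n) :
    lg p n = sg p * lam p n := by
  unfold sg
  rw [dif_pos ⟨hp, h1⟩]
  exact (lg_eq hp h1).choose_spec.2 n hn

theorem nse_iff (D : ℕ) (a b : ℕ → ZMod 3) : NSe D a b ↔ NSg D (fun p => sg p * a p) b := by
  have key : ∀ (g : ℕ → ZMod 3), ∀ p ∈ D.primeFactors, p % 3 = 1 →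
      ∑ r ∈ D.primeFactors, (D.factorization r : ZMod 3) * lg p r * (g r - g p) =
        sg p * ∑ r ∈ D.primeFactors, mu D r * lam p r * (g r - g p) := by
    intro g p hp h1
    have hpp := Nat.prime_of_mem_primeFactors hp
    rw [Finset.mul_sum]
    refine Finset.sum_congr rfl fun r hr => ?_
    by_cases hrp : r = p
    · rw [hrp, sub_self, mul_zero, mul_zero, mul_zero]
    · have hnd : ¬ p ∣ r := fun h => hrp
        ((Nat.prime_dvd_prime_iff_eq hpp (Nat.prime_of_mem_primeFactors hr)).1 h).symm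
      rw [sg_lg hpp h1 hnd]
      unfold mu
      ring
  have hsg := sg_sq
  constructor
  · intro h g h1 h2
    refine h g (fun p hp hp1 => ?_) h2
    rw [key g p hp hp1, h1 p hp hp1]
    linear_combination (a p * g p) * hsg p
  · intro h g h1 h2
    refine h g (fun p hp hp1 => ?_) h2
    have h3 := h1 p hp hp1
    rw [key g p hp hp1] at h3
    linear_combination (sg p) * h3 -
      (∑ r ∈ D.primeFactors, mu D r * lam p r * (g r - g p)) * hsg p

section
variable {n : ℕ} (D : Fin n → ℕ)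

/-- the proportion of the good parameters, with the elementary logarithm -/
noncomputable def cEl : ℝ :=
  (Nat.card {y : (R1 D → ZMod 3) × (RR D → ZMod 3) //
    ∀ i, NSe (D i) (exN (R1 D) y.1) (exN (RR D) y.2)} : ℝ) / 3 ^ ((R1 D).card + (RR D).card)

theorem cEl_eq : cEl D = cQ D := by
  unfold cEl cQ
  congr 2
  have hinv : Function.Involutive (fun y : (R1 D → ZMod 3) × (RR D → ZMod 3) =>
      ((fun p : R1 D => sg p * y.1 p, y.2) : (R1 D → ZMod 3) × (RR D → ZMod 3))) := by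
    rintro ⟨a, b⟩
    refine Prod.ext ?_ rfl
    funext p
    show sg p * (sg p * a p) = a p
    rw [← mul_assoc, sg_sq, one_mul]
  refine Nat.card_congr (hinv.toPerm.subtypeEquiv fun y => ?_)
  refine forall_congr' fun i => ?_
  rw [nse_iff]
  have hc : ∀ p ∈ (D i).primeFactors, p % 3 = 1 → sg p * exN (R1 D) y.1 p =
      exN (R1 D) (fun p : R1 D => sg p * y.1 p) p := by
    intro p hp h1
    have hm : p ∈ R1 D := Finset.mem_filter.2 ⟨mem_RR D hp, h1⟩
    unfold exN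
    rw [dif_pos hm, dif_pos hm]
  exact ⟨fun h => h.congr hc fun _ _ => rfl,
    fun h => h.congr (fun p hp h1 => (hc p hp h1).symm) fun _ _ => rfl⟩

/-- the number of the admissible classes -/
def clsN : ℕ := (({1, 4, 7} : Finset ℕ).filter fun r => ∀ i, (D i * r) % 9 ≠ 1 ∧
  (D i * r) % 9 ≠ 8).card

theorem clsN_eq : Nat.card {e // okQ D e} = clsN D := by
  unfold clsN
  refine (Nat.subtype_card ((Finset.univ : Finset (ZMod 3)).filter fun e => okQ D e)
    (by intro e; simp)).trans ?_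
  refine Finset.card_bij (fun e _ => 3 * e.val + 1) ?_ ?_ ?_
  · intro e he
    rw [Finset.mem_filter] at he ⊢
    refine ⟨?_, fun i => he.2 i⟩
    have h0 : ∀ e : ZMod 3, 3 * e.val + 1 ∈ ({1, 4, 7} : Finset ℕ) := by decide
    exact h0 e
  · intro e _ e' _ h
    have : e.val = e'.val := by omega
    exact ZMod.val_injective 3 this
  · intro r hr
    rw [Finset.mem_filter] at hr
    obtain ⟨h1, h2⟩ := hr
    have h3 : r = 1 ∨ r = 4 ∨ r = 7 := by simpa using h1
    rcases h3 with rfl | rfl | rfl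
    · exact ⟨0, Finset.mem_filter.2 ⟨Finset.mem_univ _, fun i => h2 i⟩, rfl⟩
    · exact ⟨1, Finset.mem_filter.2 ⟨Finset.mem_univ _, fun i => h2 i⟩, rfl⟩
    · exact ⟨2, Finset.mem_filter.2 ⟨Finset.mem_univ _, fun i => h2 i⟩, rfl⟩

end

/-- the arithmetic conclusion -/
def Con (D : ℕ) : Prop :=
  IsGloballyMinimal (WD D) ∧ Triv3 D ∧ ∃ f, IsL (WD D) f ∧ f 1 ≠ 0 ∧ ∃ u : ℂ,
    f 1 = u * (((Omega (WD D) : ℝ) : ℂ) * (tamProd (WD D) : ℂ) / (tors D : ℂ) ^ 2) ∧ ThreeUnit u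

theorem con_iff {D : ℕ} (hC : Cls D) : Con D ↔ NoSplit D := by
  obtain ⟨h0, f, hf, u, hu, -, h1, h2⟩ := fin_all hC
  constructor
  · rintro ⟨-, h, -⟩
    exact h2.1 h
  · intro h
    have h3 := h2.2 h
    have h4 := h1.2 h3
    refine ⟨h0, h3, f, hf, ?_, u, hu, h4⟩
    rw [hu]
    have hB := hC.1
    obtain ⟨m, hm3, hm⟩ := Pool.Agent.Y145.CT.tamThm Pool.Agent.Y809.BSD14.t_E0 D hB
    have hper := Pool.Agent.Y333.CT.per D (Nat.pos_of_ne_zero hB.1)
    have hDpos : (0 : ℝ) < D := by exact_mod_cast Nat.pos_of_ne_zero hB.1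
    have hOm : Omega (WD D) ≠ 0 := by
      have hper' : Omega (WD D) =
        √3 * (Real.Gamma (1 / 3) ^ 3 / (2 * Real.pi)) / (D : ℝ) ^ (1 / 3 : ℝ) := hper
      rw [hper']
      have hG : 0 < Real.Gamma (1 / 3) := Real.Gamma_pos_of_pos (by norm_num)
      have hR : 0 < (D : ℝ) ^ (1 / 3 : ℝ) := Real.rpow_pos_of_pos hDpos _
      positivity
    have hm0 : m ≠ 0 := by
      rintro rfl
      exact hm3 (dvd_zero 3)
    have ht : tamProd (WD D) ≠ 0 := by
      rw [hm]
      exact mul_ne_zero (pow_ne_zero _ (by norm_num)) hm0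
    have hfin : Finite (EQ (WD D)).toAffine.Point := h3.1
    have hto : tors D ≠ 0 := by
      unfold tors
      exact Nat.card_pos.ne'
    refine mul_ne_zero h4.1 (div_ne_zero (mul_ne_zero ?_ ?_) (pow_ne_zero _ ?_))
    · exact Complex.ofReal_ne_zero.2 hOm
    · exact_mod_cast ht
    · exact_mod_cast hto

theorem good_iff {n : ℕ} (D : Fin n → ℕ) (hD : ∀ i, Bs (D i)) {l : ℕ} (hl : l.Prime)
    (hl1 : l % 3 = 1) : GoodQ D l ↔ ∀ i, ¬ l ∣ D i ∧ (D i * l) % 9 ≠ 1 ∧ (D i * l) % 9 ≠ 8 ∧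
      Con (D i * l) := by
  unfold GoodQ
  refine forall_congr' fun i => ?_
  constructor
  · rintro ⟨h1, h2, h3, h4⟩
    exact ⟨h1, h2, h3, (con_iff ((cls_iff (bs_mul (hD i) hl hl1 h1)).2 ⟨h2, h3⟩)).2 h4⟩
  · rintro ⟨h1, h2, h3, h4⟩
    exact ⟨h1, h2, h3, (con_iff ((cls_iff (bs_mul (hD i) hl hl1 h1)).2 ⟨h2, h3⟩)).1 h4⟩

theorem clsN_pos {n : ℕ} (D : Fin n → ℕ) (hn : n ≤ 2) : 0 < clsN D := by
  unfold clsN
  by_contra h0
  have h1 : (({1, 4, 7} : Finset ℕ).filter fun r => ∀ i, (D i * r) % 9 ≠ 1 ∧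
      (D i * r) % 9 ≠ 8) = ∅ := Finset.card_eq_zero.1 (by omega)
  rw [Finset.filter_eq_empty_iff] at h1
  have h2 : ∀ r ∈ ({1, 4, 7} : Finset ℕ), ∃ i, (D i * r) % 9 = 1 ∨ (D i * r) % 9 = 8 := by
    intro r hr
    have h3 := h1 hr
    push Not at h3
    obtain ⟨i, hi⟩ := h3
    refine ⟨i, ?_⟩
    by_cases h4 : (D i * r) % 9 = 1
    · exact Or.inl h4
    · exact Or.inr (hi h4)
  obtain ⟨a, ha⟩ := h2 1 (by decide)
  obtain ⟨b, hb⟩ := h2 4 (by decide)
  obtain ⟨e, he⟩ := h2 7 (by decide)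
  have hab : a ≠ b := by
    rintro rfl
    omega
  have hae : a ≠ e := by
    rintro rfl
    omega
  have hbe : b ≠ e := by
    rintro rfl
    omega
  have := a.2
  have := b.2
  have := e.2
  have h3 : (a : ℕ) ≠ b := fun h => hab (Fin.ext h)
  have h4 : (a : ℕ) ≠ e := fun h => hae (Fin.ext h)
  have h5 : (b : ℕ) ≠ e := fun h => hbe (Fin.ext h)
  omega

end Q283.TQ
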