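import Pool.Agent.Y710.CX.NS

/-!
# The splittings of a cube-free number as a linear system over the field with three elements
-/

set_option autoImplicit false

open scoped Classical

namespace Q283.TQ

open Finset Pool.Agent.Y703.CX
open Pool.Agent.Y703.CT (Cls NoSplit Base)
open Pool.Agent.Y710.CX (lam_one part part_prime cube_two not_dvd_prod)

/-- the class of the numbers which are twisted -/
def Bs (D : ℕ) : Prop := Base D ∧
  ∃ q : ℕ, q.Prime ∧ q % 3 = 2 ∧ q ∣ D ∧ ∀ p : ℕ, p.Prime → p ∣ D → p ≠ q → p % 3 = 1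

/-- the multiplicity -/
def mu (D r : ℕ) : ZMod 3 := (D.factorization r : ZMod 3)

/-- all solutions of the linear system are constant -/
def Ker (D : ℕ) : Prop := ∀ c : ℕ → ZMod 3,
  (∀ p ∈ D.primeFactors, p % 3 = 1 →
    ∑ r ∈ D.primeFactors, mu D r * lam p r * (c r - c p) = 0) →
  ∀ p ∈ D.primeFactors, ∀ q ∈ D.primeFactors, c p = c q

theorem Bs.ne_zero {D : ℕ} (h : Bs D) : D ≠ 0 := h.1.1

theorem Bs.three {D : ℕ} (h : Bs D) : ∀ p ∈ D.primeFactors, p ≠ 3 := by
  rintro p hp rfl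
  exact h.1.2.1 (Nat.dvd_of_mem_primeFactors hp)

theorem Bs.case {D : ℕ} (h : Bs D) : ∀ p ∈ D.primeFactors, p % 3 = 1 ∨ p % 3 = 2 := by
  intro p hp
  have h3 : p % 3 ≠ 0 := fun h3 => h.three p hp
    ((Nat.prime_dvd_prime_iff_eq Nat.prime_three (Nat.prime_of_mem_primeFactors hp)).1
      (Nat.dvd_of_mod_eq_zero h3)).symm
  omega

theorem Bs.mu_ne {D : ℕ} (h : Bs D) : ∀ p ∈ D.primeFactors, mu D p ≠ 0 := by
  intro p hp h0
  have hpp := Nat.prime_of_mem_primeFactors hp
  unfold mu at h0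
  rw [ZMod.natCast_eq_zero_iff] at h0
  have h1 : 1 ≤ D.factorization p := (hpp.dvd_iff_one_le_factorization h.ne_zero).1
    (Nat.dvd_of_mem_primeFactors hp)
  have h2 : 3 ≤ D.factorization p := Nat.le_of_dvd (by omega) h0
  exact h.1.2.2 p hpp ((hpp.pow_dvd_iff_le_factorization h.ne_zero).2 h2)

/-! ## the logarithm of a product of powers of primes -/

theorem not_dvd_prod_pow {p : ℕ} (hp : p.Prime) (T : Finset ℕ) (e : ℕ → ℕ)
    (hT : ∀ q ∈ T, q.Prime) (hpT : p ∉ T) : ¬ p ∣ ∏ q ∈ T, q ^ e q := by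
  intro h
  obtain ⟨q, hq, hpq⟩ := (hp.prime.dvd_finsetProd_iff _).1 h
  rw [(Nat.prime_dvd_prime_iff_eq hp (hT q hq)).1 (hp.dvd_of_dvd_pow hpq)] at hpT
  exact hpT hq

theorem lam_pow (h : LamP) {p : ℕ} (hp : p.Prime) (hp1 : p % 3 = 1) {q : ℕ} (hq : ¬ p ∣ q)
    (k : ℕ) : lam p (q ^ k) = (k : ZMod 3) * lam p q := by
  induction k with
  | zero => rw [pow_zero, lam_one h hp hp1, Nat.cast_zero, zero_mul]
  | succ k ih =>
    rw [pow_succ, h.mul p _ _ hp hp1 (fun h => hq (hp.dvd_of_dvd_pow h)) hq, ih]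
    push_cast
    ring

theorem lam_prod (h : LamP) {p : ℕ} (hp : p.Prime) (hp1 : p % 3 = 1) (T : Finset ℕ) (e : ℕ → ℕ)
    (hT : ∀ q ∈ T, q.Prime) (hpT : p ∉ T) :
    lam p (∏ q ∈ T, q ^ e q) = ∑ q ∈ T, (e q : ZMod 3) * lam p q := by
  induction T using Finset.induction_on with
  | empty => simpa using lam_one h hp hp1
  | insert a T ha ih =>
    rw [Finset.prod_insert ha, Finset.sum_insert ha]
    have h1 : ∀ q ∈ T, q.Prime := fun q hq => hT q (Finset.mem_insert_of_mem hq)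
    have h2 : p ∉ T := fun hq => hpT (Finset.mem_insert_of_mem hq)
    have h3 : ¬ p ∣ a := by
      intro h4
      have := (Nat.prime_dvd_prime_iff_eq hp (hT a (Finset.mem_insert_self _ _))).1 h4
      exact hpT (this ▸ Finset.mem_insert_self _ _)
    have h4 : ¬ p ∣ a ^ e a := fun h => h3 (hp.dvd_of_dvd_pow h)
    rw [h.mul p _ _ hp hp1 h4 (not_dvd_prod_pow hp T e h1 h2), ih h1 h2, lam_pow h hp hp1 h3]

/-- the product of the powers of the primes with label `i` -/
noncomputable def dd (D : ℕ) (c : ℕ → ZMod 3) (i : ZMod 3) : ℕ :=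
  ∏ q ∈ part D.primeFactors c i, q ^ D.factorization q

theorem not_dvd_dd {D : ℕ} (c : ℕ → ZMod 3) {p : ℕ} (hp : p.Prime)
    {i : ZMod 3} (hi : i ≠ c p) : ¬ p ∣ dd D c i :=
  not_dvd_prod_pow hp _ _ (part_prime (fun _ h => Nat.prime_of_mem_primeFactors h) c i)
    fun h => hi (Finset.mem_filter.1 h).2.symm

theorem lam_dd (h : LamP) {D : ℕ} (c : ℕ → ZMod 3) {p : ℕ}
    (hp : p.Prime) (hp1 : p % 3 = 1) :
    ¬ p ∣ dd D c (c p + 1) * dd D c (c p + 2) ^ 2 ∧
    lam p (dd D c (c p + 1) * dd D c (c p + 2) ^ 2) =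
      ∑ q ∈ D.primeFactors, mu D q * lam p q * (c q - c p) := by
  have hS : ∀ q ∈ D.primeFactors, q.Prime := fun _ h => Nat.prime_of_mem_primeFactors h
  have n1 : c p + 1 ≠ c p := by
    have : ∀ a : ZMod 3, a + 1 ≠ a := by decide
    exact this _
  have n2 : c p + 2 ≠ c p := by
    have : ∀ a : ZMod 3, a + 2 ≠ a := by decide
    exact this _
  have d1 := not_dvd_dd (D := D) c hp n1
  have d2 := not_dvd_dd (D := D) c hp n2
  have d22 : ¬ p ∣ dd D c (c p + 2) ^ 2 := fun h => d2 (hp.dvd_of_dvd_pow h)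
  refine ⟨fun h => (hp.dvd_mul.1 h).elim d1 d22, ?_⟩
  rw [h.mul p _ _ hp hp1 d1 d22, sq, h.mul p _ _ hp hp1 d2 d2]
  have m1 : p ∉ part D.primeFactors c (c p + 1) := fun h => n1 (Finset.mem_filter.1 h).2.symm
  have m2 : p ∉ part D.primeFactors c (c p + 2) := fun h => n2 (Finset.mem_filter.1 h).2.symm
  unfold dd
  rw [lam_prod h hp hp1 _ _ (part_prime hS c _) m1, lam_prod h hp hp1 _ _ (part_prime hS c _) m2]
  unfold part mu
  rw [Finset.sum_filter, Finset.sum_filter, ← Finset.sum_add_distrib, ← Finset.sum_add_distrib]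
  refine Finset.sum_congr rfl fun q _ => ?_
  have key : ∀ a i l : ZMod 3, (if a = i + 1 then l else 0) +
      ((if a = i + 2 then l else 0) + (if a = i + 2 then l else 0)) = l * (a - i) := by decide
  exact key _ _ _

theorem prod_dd {D : ℕ} (hD : D ≠ 0) (c : ℕ → ZMod 3) : ∏ i, dd D c i = D := by
  unfold dd part
  rw [Finset.prod_fiberwise D.primeFactors c fun q => q ^ D.factorization q]
  exact Nat.prod_factorization_pow_eq_self hD

theorem ker_of_nosplit (h : LamP) {D : ℕ} (hD : Bs D) (hn : NoSplit D) : Ker D := by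
  intro c hc
  have hS : ∀ q ∈ D.primeFactors, q.Prime := fun _ h => Nat.prime_of_mem_primeFactors h
  have hmem : ∀ (i : ZMod 3) (p : ℕ), p.Prime → p ∣ dd D c i → p ∈ D.primeFactors ∧ c p = i := by
    intro i p hp hd
    unfold dd at hd
    obtain ⟨q, hq, hpq⟩ := (hp.prime.dvd_finsetProd_iff _).1 hd
    rw [(Nat.prime_dvd_prime_iff_eq hp (part_prime hS c i q hq)).1 (hp.dvd_of_dvd_pow hpq)]
    exact Finset.mem_filter.1 hq
  have hA : ∀ i j : ZMod 3, i ≠ j → Nat.Coprime (dd D c i) (dd D c j) := by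
    intro i j hij
    refine Nat.coprime_of_dvd fun p hp h1 h2 => ?_
    have e1 := (hmem _ p hp h1).2
    have e2 := (hmem _ p hp h2).2
    exact hij (e1.symm.trans e2)
  have hB : ∀ (i : ZMod 3) (p : ℕ), p.Prime → p ∣ dd D c i →
      ∃ x : ℤ, (p : ℤ) ∣ (dd D c (i + 1) : ℤ) * (dd D c (i + 2) : ℤ) ^ 2 - x ^ 3 := by
    intro i p hp hd
    obtain ⟨hpS, hcp⟩ := hmem i p hp hd
    rcases hD.case p hpS with h1 | h2
    · obtain ⟨k1, k2⟩ := lam_dd h (D := D) c hp h1
      rw [hcp] at k1 k2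
      have k3 := hc p hpS h1
      rw [hcp] at k3
      rw [k3] at k2
      have := (h.cube p _ hp h1 k1).1 k2
      push_cast at this
      exact this
    · exact cube_two hp h2 _
  have hC := hn (dd D c) (prod_dd hD.ne_zero c) hA hB
  obtain ⟨i, hi⟩ := hC
  have hall : ∀ p ∈ D.primeFactors, c p = i := by
    intro p hp
    by_contra hne
    have h1 := hi (c p) hne
    have h2 : p ∣ dd D c (c p) := by
      unfold dd
      have h3 : p ^ D.factorization p ∣ ∏ q ∈ part D.primeFactors c (c p), q ^ D.factorization q :=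
        Finset.dvd_prod_of_mem (fun q => q ^ D.factorization q)
          (Finset.mem_filter.2 ⟨hp, rfl⟩)
      refine (dvd_pow_self p ?_).trans h3
      have := ((hS p hp).dvd_iff_one_le_factorization hD.ne_zero).1 (Nat.dvd_of_mem_primeFactors hp)
      omega
    rw [h1] at h2
    exact (hS p hp).one_lt.ne' (Nat.dvd_one.1 h2)
  intro p hp q hq
  rw [hall p hp, hall q hq]

theorem nosplit_of_ker (h : LamP) {D : ℕ} (hD : Bs D) (hg : Ker D) : NoSplit D := by
  intro d hd hcop hcube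
  have hS : ∀ q ∈ D.primeFactors, q.Prime := fun _ h => Nat.prime_of_mem_primeFactors h
  have hex : ∀ p ∈ D.primeFactors, ∃ i : ZMod 3, p ∣ d i := by
    intro p hp
    have h1 : p ∣ ∏ i, d i := by
      rw [hd]
      exact Nat.dvd_of_mem_primeFactors hp
    obtain ⟨i, -, hi⟩ := ((hS p hp).prime.dvd_finsetProd_iff _).1 h1
    exact ⟨i, hi⟩
  have huniq : ∀ p : ℕ, p.Prime → ∀ i j : ZMod 3, p ∣ d i → p ∣ d j → i = j := by
    intro p hp i j h1 h2
    by_contra hne
    have h3 : p ∣ Nat.gcd (d i) (d j) := Nat.dvd_gcd h1 h2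
    rw [Nat.Coprime.gcd_eq_one (hcop i j hne)] at h3
    exact hp.one_lt.ne' (Nat.dvd_one.1 h3)
  obtain ⟨c, hc⟩ : ∃ c : ℕ → ZMod 3, ∀ p ∈ D.primeFactors, p ∣ d (c p) := by
    refine ⟨fun p => if hp : ∃ i : ZMod 3, p ∣ d i then hp.choose else 0, fun p hp => ?_⟩
    have := hex p hp
    simp only [this, dif_pos]
    exact this.choose_spec
  have h0 : D ≠ 0 := hD.ne_zero
  have hdD : ∀ i, d i ∣ D := fun i => by
    rw [← hd]
    exact Finset.dvd_prod_of_mem _ (Finset.mem_univ i)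
  have hd0 : ∀ i, d i ≠ 0 := fun i h => h0 (Nat.eq_zero_of_zero_dvd (h ▸ hdD i))
  have hfac : ∀ (i : ZMod 3) (q : ℕ), q.Prime → q ∣ d i →
      (d i).factorization q = D.factorization q := by
    intro i q hq hqi
    rw [← hd, Nat.factorization_prod fun j _ => hd0 j, Finsupp.finsetSum_apply,
      Finset.sum_eq_single i]
    · intro j _ hj
      exact Nat.factorization_eq_zero_of_not_dvd fun h => hj (huniq q hq _ _ h hqi)
    · intro h
      exact absurd (Finset.mem_univ i) h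
  have hdd : ∀ i, dd D c i = d i := by
    intro i
    have e1 : part D.primeFactors c i = (d i).primeFactors := by
      ext p
      unfold part
      rw [Finset.mem_filter, Nat.mem_primeFactors, Nat.mem_primeFactors]
      constructor
      · rintro ⟨⟨hp, hpD, -⟩, rfl⟩
        exact ⟨hp, hc p (Nat.mem_primeFactors.2 ⟨hp, hpD, h0⟩), hd0 _⟩
      · rintro ⟨hp, hpd, -⟩
        have hpm : p ∈ D.primeFactors := Nat.mem_primeFactors.2 ⟨hp, hpd.trans (hdD i), h0⟩
        exact ⟨⟨hp, hpd.trans (hdD i), h0⟩, huniq p hp _ _ (hc p hpm) hpd⟩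
    have e2 : ∏ q ∈ (d i).primeFactors, q ^ (d i).factorization q = d i :=
      Nat.prod_factorization_pow_eq_self (hd0 i)
    unfold dd
    rw [e1]
    refine Eq.trans (Finset.prod_congr rfl fun q hq => ?_) e2
    rw [hfac i q (Nat.prime_of_mem_primeFactors hq) (Nat.dvd_of_mem_primeFactors hq)]
  have hsol : ∀ p ∈ D.primeFactors, p % 3 = 1 →
      ∑ r ∈ D.primeFactors, mu D r * lam p r * (c r - c p) = 0 := by
    intro p hp hp1
    obtain ⟨k1, k2⟩ := lam_dd h (D := D) c (hS p hp) hp1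
    rw [← k2]
    rw [h.cube p _ (hS p hp) hp1 k1, hdd, hdd]
    have := hcube (c p) p (hS p hp) (hc p hp)
    push_cast
    exact this
  have hconst := hg c hsol
  obtain ⟨q, hq, -, hqD, -⟩ := hD.2
  have hqm : q ∈ D.primeFactors := Nat.mem_primeFactors.2 ⟨hq, hqD, h0⟩
  refine ⟨c q, fun i hi => ?_⟩
  by_contra hne
  obtain ⟨p, hp, hpd⟩ := Nat.exists_prime_and_dvd hne
  have hpm : p ∈ D.primeFactors := Nat.mem_primeFactors.2 ⟨hp, hpd.trans (hdD i), h0⟩
  have e1 := huniq p hp _ _ (hc p hpm) hpd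
  exact hi (e1.symm.trans (hconst p hpm q hqm))

theorem nosplit_iff (h : LamP) {D : ℕ} (hD : Bs D) : NoSplit D ↔ Ker D :=
  ⟨ker_of_nosplit h hD, nosplit_of_ker h hD⟩

end Q283.TQ
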