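import Pool.Agent.Q283.TC.Lin

/-!
# Several Laplacians with different weights
-/

set_option autoImplicit false

namespace Q283.TQ

open Finset
open Q283.TC (NS ns_congr ns_unique)

variable {ι : Type*} [DecidableEq ι]

theorem family_aux {κ : Type*} (a : κ → ι → ι → ZMod 3) (I : Finset κ) (P : Finset ι) :
    ∀ (S : κ → Finset ι) (e : κ → ι → ZMod 3), (∀ i ∈ I, S i ⊆ P) →
    (∀ p, (I.filter fun i => p ∈ S i).card ≤ 2) → ∃ u : ι → ZMod 3,
      ∀ i ∈ I, NS (a i) (S i) (fun q => u q + e i q) := by
  classical
  induction P using Finset.induction_on with
  | empty =>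
    intro S e h _
    refine ⟨0, fun i hi v _ q hq => ?_⟩
    have := h i hi
    rw [Finset.subset_empty] at this
    rw [this] at hq
    exact absurd hq (Finset.notMem_empty q)
  | insert p P hp ih =>
    intro S e h hcard
    have hsub : ∀ i ∈ I, (S i).erase p ⊆ P := by
      intro i hi x hx
      rw [Finset.mem_erase] at hx
      rcases Finset.mem_insert.1 (h i hi hx.2) with h | h
      · exact absurd h hx.1
      · exact h
    obtain ⟨u, hu⟩ := ih (fun i => (S i).erase p)
      (fun i q => e i q + if p ∈ S i then a i q p else 0) hsub (by
        intro q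
        refine le_trans (Finset.card_le_card ?_) (hcard q)
        intro i hi
        rw [Finset.mem_filter] at hi ⊢
        exact ⟨hi.1, Finset.mem_of_mem_erase hi.2⟩)
    have key1 : ∀ i ∈ I, p ∉ S i → ∀ c : ZMod 3,
        NS (a i) (S i) (fun q => Function.update u p c q + e i q) := by
      intro i hi hpS c
      have h3 : (S i).erase p = S i := Finset.erase_eq_of_notMem hpS
      have h4 := hu i hi
      rw [h3] at h4
      refine (ns_congr fun q hq => ?_).1 h4
      rw [if_neg hpS, add_zero, Function.update_of_ne]
      rintro rfl
      exact hpS hq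
    have key : ∀ i ∈ I, p ∈ S i → ∀ c d : ZMod 3,
        ¬ NS (a i) (S i) (fun q => Function.update u p c q + e i q) →
        ¬ NS (a i) (S i) (fun q => Function.update u p d q + e i q) → c = d := by
      intro i hi hpS c d hc hd
      have hins : insert p ((S i).erase p) = S i := Finset.insert_erase hpS
      have hupd : ∀ c : ZMod 3, (fun q => Function.update u p c q + e i q) =
          Function.update (fun q => u q + e i q) p (c + e i p) := by
        intro c
        funext q
        by_cases hq : q = p
        · subst hq
          rw [Function.update_self, Function.update_self]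
        · rw [Function.update_of_ne hq, Function.update_of_ne hq]
      rw [hupd, ← hins] at hc hd
      have h3 : NS (a i) ((S i).erase p) (fun q => (fun q => u q + e i q) q + a i q p) := by
        refine (ns_congr fun q _ => ?_).1 (hu i hi)
        rw [if_pos hpS]
        ring
      exact add_right_cancel (ns_unique (Finset.notMem_erase p (S i)) h3 hc hd)
    by_contra hno
    push Not at hno
    set J := I.filter fun i => p ∈ S i with hJ
    have hall : ∀ c : ZMod 3, ∃ i ∈ J, ¬ NS (a i) (S i)
        (fun q => Function.update u p c q + e i q) := by
      intro c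
      obtain ⟨i, hi, h5⟩ := hno (Function.update u p c)
      refine ⟨i, Finset.mem_filter.2 ⟨hi, ?_⟩, h5⟩
      by_contra hpS
      exact h5 (key1 i hi hpS c)
    choose f hf1 hf2 using hall
    have hinj : Function.Injective f := by
      intro c d hcd
      have h6 := (Finset.mem_filter.1 (hf1 c))
      refine key (f c) h6.1 h6.2 c d (hf2 c) ?_
      have := hf2 d
      rw [← hcd] at this
      exact this
    have hle : (Finset.univ.image f).card ≤ J.card := by
      refine Finset.card_le_card ?_
      intro i hi
      obtain ⟨c, -, rfl⟩ := Finset.mem_image.1 hi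
      exact hf1 c
    rw [Finset.card_image_of_injective _ hinj, Finset.card_univ, ZMod.card] at hle
    have h9 : J.card ≤ 2 := by convert hcard p
    omega

/-- **Several graphs with different weights.** -/
theorem family {κ : Type*} (a : κ → ι → ι → ZMod 3) (I : Finset κ) (S : κ → Finset ι)
    (e : κ → ι → ZMod 3)
    (h : ∀ p, (I.filter fun i => p ∈ S i).card ≤ 2) : ∃ u : ι → ZMod 3,
      ∀ i ∈ I, NS (a i) (S i) (fun q => u q + e i q) :=
  family_aux a I (I.biUnion S) S e (fun _ hi => Finset.subset_biUnion_of_mem S hi) h

end Q283.TQ
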