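import Pool.Agent.Q283.TQ.Sym
import Pool.Agent.Q283.TQ.Lin
import Pool.Agent.Q283.TC.Set

/-!
# From primes of the Eisenstein integers to rational primes `ℓ ≡ 1` modulo `3`; the parameters
-/

set_option autoImplicit false
set_option linter.unusedSectionVars false

open scoped Classical

namespace Q283.TQ

open NumberField Filter Topology Finset Pool.Agent.W401.Cheb
open Pool.Agent.Y703.CX
open Pool.Agent.Y703.CT (Cls NoSplit Base)
open Pool.Agent.Y692.QS
open Pool.Agent.Y715.T.Rec (cs nn)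
open Pool.Agent.Y715.T.RecG (Pq)
open Pool.Agent.Y405.CT (pq_star)
open Pool.Agent.Y333.CX (pp_spec)
open Q283.TC (NT FT NT_split few_inert sqrt_div_pc mod_three ex)

/-- the number of the primes `ℓ = 1` modulo `3` up to `X` with the property `T` -/
noncomputable def CN (T : ℕ → Prop) (X : ℕ) : ℕ :=
  ((range (X + 1)).filter fun l => (l.Prime ∧ l % 3 = 1) ∧ T l).card

theorem star_ne {p : ℕ} (hp : p.Prime) (h1 : p % 3 = 1) : pp p ≠ star (pp p) := by
  obtain ⟨-, hn⟩ := pp_spec hp h1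
  have := Fact.mk hp
  intro h
  apply im_ne hn
  have h2 : (pp p).im = (star (pp p)).im := congrArg QuadraticAlgebra.im h
  have h3 : (star (pp p)).im = - (pp p).im := by simp
  have h4 : (pp p).im = 0 := by omega
  rw [h4, Int.cast_zero]

theorem FT_eq {T : ℕ → Prop} {T' : Ei → Prop}
    (h : ∀ π, Pq π → ∀ l : ℕ, l.Prime → nr π = l → (T' π ↔ T l)) {p : ℕ} (hp : p.Prime) :
    FT T' p = if p % 3 = 1 ∧ T p then 2 else 0 := by
  unfold FT
  split_ifs with hc
  · obtain ⟨h1, h2⟩ := hc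
    obtain ⟨hq, hn⟩ := pp_spec hp h1
    have e : Nat.card {π : Ei // Pq π ∧ nr π = (p : ℤ) ∧ T' π} =
        ({pp p, star (pp p)} : Finset Ei).card := by
      refine Nat.subtype_card _ fun π => ?_
      rw [Finset.mem_insert, Finset.mem_singleton]
      constructor
      · rintro (rfl | rfl)
        · exact ⟨hq, hn, (h _ hq p hp hn).2 h2⟩
        · have hs := pq_star hq
          have hns : nr (star (pp p)) = p := by rw [nr_star, hn]
          exact ⟨hs, hns, (h _ hs p hp hns).2 h2⟩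
      · rintro ⟨a, b, -⟩
        exact eq_or_star hq hn hp a b
    rw [e, Finset.card_pair (star_ne hp h1)]
  · have : IsEmpty {π : Ei // Pq π ∧ nr π = (p : ℤ) ∧ T' π} := by
      refine ⟨fun π => hc ?_⟩
      obtain ⟨π, a, b, c⟩ := π
      refine ⟨mod_three b hp ?_, (h π a p hp b).1 c⟩
      rintro rfl
      apply a.norm
      refine ⟨star π, ?_⟩
      rw [mul_star, b]
      rfl
    exact Nat.card_of_isEmpty

theorem NT_CN {T : ℕ → Prop} {T' : Ei → Prop}
    (h : ∀ π, Pq π → ∀ l : ℕ, l.Prime → nr π = l → (T' π ↔ T l)) (X : ℕ) :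
    NT T' X = 2 * CN T X +
      {π : Ei | Pq π ∧ nr π ≤ X ∧ T' π ∧ ¬ (nr π).natAbs.Prime}.ncard := by
  rw [NT_split]
  congr 1
  have e : ∀ p ∈ pr X, FT T' p = if p % 3 = 1 ∧ T p then 2 else 0 := fun p hp =>
    FT_eq h ((mem_pr).1 hp).2
  rw [Finset.sum_congr rfl e, ← Finset.sum_filter, Finset.sum_const, smul_eq_mul, mul_comm]
  congr 2
  ext p
  rw [Finset.mem_filter, Finset.mem_filter, mem_pr, Finset.mem_range]
  constructor
  · rintro ⟨⟨a, b⟩, c, d⟩
    exact ⟨by omega, ⟨b, c⟩, d⟩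
  · rintro ⟨a, ⟨b, c⟩, d⟩
    exact ⟨⟨by omega, b⟩, c, d⟩

theorem CN_tendsto {T : ℕ → Prop} {T' : Ei → Prop}
    (h : ∀ π, Pq π → ∀ l : ℕ, l.Prime → nr π = l → (T' π ↔ T l)) {c : ℝ}
    (hc : Tendsto (fun X : ℕ => (NT T' X : ℝ) / (Nat.primeCounting X : ℝ)) atTop (𝓝 c)) :
    Tendsto (fun X : ℕ => (CN T X : ℝ) / (Nat.primeCounting X : ℝ)) atTop (𝓝 (c / 2)) := by
  have h1 : Tendsto (fun X : ℕ =>
      (({π : Ei | Pq π ∧ nr π ≤ X ∧ T' π ∧ ¬ (nr π).natAbs.Prime}.ncard : ℕ) : ℝ) /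
        (Nat.primeCounting X : ℝ)) atTop (𝓝 0) := by
    refine squeeze_zero (fun X => by positivity) (fun X => ?_) sqrt_div_pc
    refine div_le_div_of_nonneg_right ?_ (Nat.cast_nonneg _)
    exact_mod_cast few_inert T' X
  have h2 := (hc.sub h1).div_const 2
  rw [sub_zero] at h2
  refine h2.congr fun X => ?_
  rw [NT_CN h]
  push_cast
  ring

/-! ## the parameters -/

section
variable {n : ℕ} (D : Fin n → ℕ)

/-- the prime factors of the numbers -/
def RR : Finset ℕ := Finset.univ.biUnion fun i => (D i).primeFactors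

/-- the prime factors `≡ 1` modulo `3` -/
def R1 : Finset ℕ := (RR D).filter fun p => p % 3 = 1

/-- the other prime factors -/
def R2 : Finset ℕ := (RR D).filter fun p => ¬ p % 3 = 1

/-- the primary primes that divide the numbers -/
noncomputable def PE : Finset Ei :=
  ((R1 D).image pp ∪ (R1 D).image fun p => star (pp p)) ∪ (R2 D).image fun q : ℕ => -(q : Ei)

/-- extension by zero -/
def exN (S : Finset ℕ) (u : S → ZMod 3) (q : ℕ) : ZMod 3 := if h : q ∈ S then u ⟨q, h⟩ else 0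

/-- the diagonal -/
noncomputable def AX (x : Ei → ZMod 3) (p : ℕ) : ZMod 3 := x (pp p) - x (star (pp p))

/-- the border -/
noncomputable def BX (x : Ei → ZMod 3) (r : ℕ) : ZMod 3 :=
  if r % 3 = 1 then x (pp r) + x (star (pp r)) else x (-(r : Ei))

theorem mem_RR {i : Fin n} {p : ℕ} (h : p ∈ (D i).primeFactors) : p ∈ RR D :=
  Finset.mem_biUnion.2 ⟨i, Finset.mem_univ _, h⟩

theorem prime_RR {p : ℕ} (h : p ∈ RR D) : p.Prime := by
  obtain ⟨i, -, h⟩ := Finset.mem_biUnion.1 h
  exact Nat.prime_of_mem_primeFactors h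

variable (hD : ∀ i, Bs (D i))

include hD in
theorem case_RR {p : ℕ} (h : p ∈ RR D) : p % 3 = 1 ∨ p % 3 = 2 := by
  obtain ⟨i, -, h⟩ := Finset.mem_biUnion.1 h
  exact (hD i).case p h

include hD in
theorem PE_pq : ∀ q ∈ PE D, Pq q := by
  intro q hq
  unfold PE at hq
  rcases Finset.mem_union.1 hq with hq | hq
  · rcases Finset.mem_union.1 hq with hq | hq
    · obtain ⟨p, hp, rfl⟩ := Finset.mem_image.1 hq
      obtain ⟨h1, h2⟩ := Finset.mem_filter.1 hp
      exact (pp_spec (prime_RR D h1) h2).1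
    · obtain ⟨p, hp, rfl⟩ := Finset.mem_image.1 hq
      obtain ⟨h1, h2⟩ := Finset.mem_filter.1 hp
      exact pq_star (pp_spec (prime_RR D h1) h2).1
  · obtain ⟨p, hp, rfl⟩ := Finset.mem_image.1 hq
    obtain ⟨h1, h2⟩ := Finset.mem_filter.1 hp
    refine pq_neg (prime_RR D h1) ?_
    rcases case_RR D hD h1 with h | h
    · exact absurd h h2
    · exact h

theorem pp_mem {p : ℕ} (h : p ∈ RR D) (h1 : p % 3 = 1) : pp p ∈ PE D := by
  unfold PE
  exact Finset.mem_union_left _ (Finset.mem_union_left _ (Finset.mem_image_of_mem _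
    (Finset.mem_filter.2 ⟨h, h1⟩)))

theorem star_mem {p : ℕ} (h : p ∈ RR D) (h1 : p % 3 = 1) : star (pp p) ∈ PE D := by
  unfold PE
  refine Finset.mem_union_left _ (Finset.mem_union_right _ ?_)
  exact Finset.mem_image_of_mem (fun p => star (pp p)) (Finset.mem_filter.2 ⟨h, h1⟩)

theorem neg_mem' {q : ℕ} (h : q ∈ RR D) (h1 : ¬ q % 3 = 1) : -(q : Ei) ∈ PE D := by
  unfold PE
  refine Finset.mem_union_right _ ?_
  exact Finset.mem_image_of_mem (fun q : ℕ => -(q : Ei)) (Finset.mem_filter.2 ⟨h, h1⟩)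

theorem nr_neg_cast (q : ℕ) : nr (-(q : Ei)) = (q : ℤ) ^ 2 := by
  have h : nr (-(q : Ei)) = nr (q : Ei) := by
    have h1 : -(q : Ei) = (-1) * (q : Ei) := by ring
    rw [h1, nr_mul]
    have : nr (-1 : Ei) = 1 := by decide
    rw [this, one_mul]
  rw [h, nr_nat]

theorem card_PE : (PE D).card = (R1 D).card + (RR D).card := by
  have hR1 : ∀ p ∈ R1 D, p.Prime ∧ p % 3 = 1 := fun p hp =>
    ⟨prime_RR D (Finset.mem_filter.1 hp).1, (Finset.mem_filter.1 hp).2⟩
  have hinj1 : Set.InjOn pp (R1 D : Set ℕ) := by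
    intro p hp q hq h
    have h1 := (pp_spec (hR1 p hp).1 (hR1 p hp).2).2
    have h2 := (pp_spec (hR1 q hq).1 (hR1 q hq).2).2
    rw [h, h2] at h1
    exact_mod_cast h1.symm
  have hinj2 : Set.InjOn (fun p => star (pp p)) (R1 D : Set ℕ) := by
    intro p hp q hq h
    exact hinj1 hp hq (star_injective h)
  have hinj3 : Set.InjOn (fun q : ℕ => -(q : Ei)) (R2 D : Set ℕ) := by
    intro p _ q _ h
    have h1 : nr (-(p : Ei)) = nr (-(q : Ei)) := congrArg nr h
    rw [nr_neg_cast, nr_neg_cast] at h1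
    have h2 : p ^ 2 = q ^ 2 := by exact_mod_cast h1
    exact Nat.pow_left_injective (by norm_num) h2
  have hd1 : Disjoint ((R1 D).image pp) ((R1 D).image fun p => star (pp p)) := by
    rw [Finset.disjoint_left]
    intro x hx hy
    obtain ⟨p, hp, rfl⟩ := Finset.mem_image.1 hx
    obtain ⟨q, hq, h⟩ := Finset.mem_image.1 hy
    have h1 := (pp_spec (hR1 p hp).1 (hR1 p hp).2).2
    have h2 := (pp_spec (hR1 q hq).1 (hR1 q hq).2).2
    have h3 : nr (star (pp q)) = nr (pp p) := congrArg nr h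
    rw [nr_star, h1, h2] at h3
    have h4 : q = p := by exact_mod_cast h3
    subst h4
    exact star_ne (hR1 q hq).1 (hR1 q hq).2 h.symm
  have hd2 : Disjoint ((R1 D).image pp ∪ (R1 D).image fun p => star (pp p))
      ((R2 D).image fun q : ℕ => -(q : Ei)) := by
    rw [Finset.disjoint_left]
    intro x hx hy
    obtain ⟨q, hq, rfl⟩ := Finset.mem_image.1 hy
    have h1 : ∃ p : ℕ, p.Prime ∧ nr (-(q : Ei)) = p := by
      rcases Finset.mem_union.1 hx with hx | hx
      · obtain ⟨p, hp, h⟩ := Finset.mem_image.1 hx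
        exact ⟨p, (hR1 p hp).1, by rw [← h]; exact (pp_spec (hR1 p hp).1 (hR1 p hp).2).2⟩
      · obtain ⟨p, hp, h⟩ := Finset.mem_image.1 hx
        exact ⟨p, (hR1 p hp).1, by
          rw [← h, nr_star]; exact (pp_spec (hR1 p hp).1 (hR1 p hp).2).2⟩
    obtain ⟨p, hp, h2⟩ := h1
    rw [nr_neg_cast] at h2
    have h3 : q ^ 2 = p := by exact_mod_cast h2
    rw [← h3] at hp
    exact Nat.Prime.not_prime_pow (le_refl 2) hp
  unfold PE
  rw [Finset.card_union_of_disjoint hd2, Finset.card_union_of_disjoint hd1,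
    Finset.card_image_of_injOn hinj1, Finset.card_image_of_injOn hinj2,
    Finset.card_image_of_injOn hinj3]
  have h : (R1 D).card + (R2 D).card = (RR D).card :=
    Finset.card_filter_add_card_filter_not _
  omega

/-- the change of parameters -/
noncomputable def Phi (x : PE D → ZMod 3) : (R1 D → ZMod 3) × (RR D → ZMod 3) :=
  (fun p => AX (ex (PE D) x) p, fun r => BX (ex (PE D) x) r)

theorem Phi_inj : Function.Injective (Phi D) := by
  intro x y h
  have h1 : ∀ p ∈ R1 D, AX (ex (PE D) x) p = AX (ex (PE D) y) p := fun p hp =>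
    congrFun (congrArg Prod.fst h) ⟨p, hp⟩
  have h2 : ∀ p ∈ RR D, BX (ex (PE D) x) p = BX (ex (PE D) y) p := fun p hp =>
    congrFun (congrArg Prod.snd h) ⟨p, hp⟩
  have key : ∀ a b c d : ZMod 3, a - b = c - d → a + b = c + d → a = c ∧ b = d := by decide
  have h3 : ∀ ρ ∈ PE D, ex (PE D) x ρ = ex (PE D) y ρ := by
    intro ρ hρ
    unfold PE at hρ
    rcases Finset.mem_union.1 hρ with hq | hq
    · rcases Finset.mem_union.1 hq with hq | hq
      · obtain ⟨p, hp, rfl⟩ := Finset.mem_image.1 hq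
        obtain ⟨a, b⟩ := Finset.mem_filter.1 hp
        have e1 := h1 p hp
        have e2 := h2 p a
        unfold AX at e1
        unfold BX at e2
        rw [if_pos b, if_pos b] at e2
        exact (key _ _ _ _ e1 e2).1
      · obtain ⟨p, hp, rfl⟩ := Finset.mem_image.1 hq
        obtain ⟨a, b⟩ := Finset.mem_filter.1 hp
        have e1 := h1 p hp
        have e2 := h2 p a
        unfold AX at e1
        unfold BX at e2
        rw [if_pos b, if_pos b] at e2
        exact (key _ _ _ _ e1 e2).2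
    · obtain ⟨p, hp, rfl⟩ := Finset.mem_image.1 hq
      obtain ⟨a, b⟩ := Finset.mem_filter.1 hp
      have e2 := h2 p a
      unfold BX at e2
      rw [if_neg b, if_neg b] at e2
      exact e2
  funext ρ
  have h4 := h3 ρ ρ.2
  unfold ex at h4
  rw [dif_pos ρ.2, dif_pos ρ.2] at h4
  exact h4

theorem card_target : Nat.card ((R1 D → ZMod 3) × (RR D → ZMod 3)) =
    3 ^ ((R1 D).card + (RR D).card) := by
  rw [Nat.card_prod, Nat.card_fun, Nat.card_fun]
  simp [pow_add]

theorem Phi_bij : Function.Bijective (Phi D) := by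
  rw [Fintype.bijective_iff_injective_and_card]
  refine ⟨Phi_inj D, ?_⟩
  rw [← Nat.card_eq_fintype_card, ← Nat.card_eq_fintype_card, card_target, Nat.card_fun]
  simp [card_PE]

/-- the count of the good parameters -/
theorem card_good (Q : Fin n → (ℕ → ZMod 3) → (ℕ → ZMod 3) → Prop)
    (hQ : ∀ i a b a' b', (∀ p ∈ (D i).primeFactors, p % 3 = 1 → a p = a' p) →
      (∀ p ∈ (D i).primeFactors, b p = b' p) → Q i a b → Q i a' b') :
    Nat.card {x : PE D → ZMod 3 // ∀ i, Q i (AX (ex (PE D) x)) (BX (ex (PE D) x))} =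
      Nat.card {y : (R1 D → ZMod 3) × (RR D → ZMod 3) //
        ∀ i, Q i (exN (R1 D) y.1) (exN (RR D) y.2)} := by
  refine Nat.card_congr ((Equiv.ofBijective _ (Phi_bij D)).subtypeEquiv fun x => ?_)
  refine forall_congr' fun i => ?_
  have ha : ∀ p ∈ (D i).primeFactors, p % 3 = 1 →
      AX (ex (PE D) x) p = exN (R1 D) (Phi D x).1 p := by
    intro p hp h1
    have hm : p ∈ R1 D := Finset.mem_filter.2 ⟨mem_RR D hp, h1⟩
    unfold exN
    rw [dif_pos hm]
    rfl
  have hb : ∀ p ∈ (D i).primeFactors, BX (ex (PE D) x) p = exN (RR D) (Phi D x).2 p := by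
    intro p hp
    have hm : p ∈ RR D := mem_RR D hp
    unfold exN
    rw [dif_pos hm]
    rfl
  exact ⟨hQ i _ _ _ _ ha hb,
    hQ i _ _ _ _ (fun p hp h1 => (ha p hp h1).symm) (fun p hp => (hb p hp).symm)⟩

end

end Q283.TQ
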