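import Pool.Agent.Q283.TQ.Den

/-!
# The density of the primes `ℓ ≡ 1` modulo `3` for which all `D_i ℓ` do not split
-/

set_option autoImplicit false
set_option linter.unusedSectionVars false

open scoped Classical

namespace Q283.TQ

open NumberField Filter Topology Finset Pool.Agent.W401.Cheb
open Pool.Agent.Y703.CX
open Pool.Agent.Y703.CT (Cls NoSplit Base)
open Pool.Agent.Y692.QS
open Pool.Agent.Y715.T.Rec (cs nn)
open Pool.Agent.Y715.T.RecG (Pq)
open Pool.Agent.Y405.CT (pq_star)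
open Pool.Agent.Y333.CX (pp_spec)
open Q283.TC (NT FT NT_split few_inert sqrt_div_pc mod_three ex Dat HH exists_field cs_w nr_form
  card_split NS ns_congr)

section
variable {n : ℕ} (D : Fin n → ℕ)

/-- the allowed primes -/
def AllQ (l : ℕ) : Prop := ∀ i, ¬ l ∣ D i ∧ (D i * l) % 9 ≠ 1 ∧ (D i * l) % 9 ≠ 8

/-- the good primes -/
def GoodQ (l : ℕ) : Prop := ∀ i, ¬ l ∣ D i ∧ (D i * l) % 9 ≠ 1 ∧ (D i * l) % 9 ≠ 8 ∧
  NoSplit (D i * l)

/-- the admissible classes -/
def okQ (e : ZMod 3) : Prop := ∀ i, (D i * (3 * e.val + 1)) % 9 ≠ 1 ∧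
  (D i * (3 * e.val + 1)) % 9 ≠ 8

/-- the proportion of the good parameters -/
noncomputable def cQ : ℝ :=
  (Nat.card {y : (R1 D → ZMod 3) × (RR D → ZMod 3) //
    ∀ i, NSg (D i) (exN (R1 D) y.1) (exN (RR D) y.2)} : ℝ) / 3 ^ ((R1 D).card + (RR D).card)

variable (hD : ∀ i, Bs (D i))

include hD in
theorem not_dvd_of {π : Ei} (hπ : Pq π) (hP : π ∉ PE D) {l : ℕ} (hl : l.Prime) (hn : nr π = l)
    (i : Fin n) : ¬ l ∣ D i := by
  intro h
  have hl1 : l % 3 = 1 := mod_three hn hl (by
    rintro rfl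
    apply hπ.norm
    refine ⟨star π, ?_⟩
    rw [mul_star, hn]
    rfl)
  have hm : l ∈ RR D := mem_RR D (Nat.mem_primeFactors.2 ⟨hl, h, (hD i).ne_zero⟩)
  obtain ⟨a, b⟩ := pp_spec hl hl1
  rcases eq_or_star a b hl hπ hn with h1 | h1
  · exact hP (h1 ▸ pp_mem D hm hl1)
  · exact hP (h1 ▸ star_mem D hm hl1)

theorem mod_nine {π : Ei} (hπ : Pq π) {l : ℕ} (hn : nr π = l) (a : ℕ) :
    (a * l) % 9 = (a * (3 * (cs π w).val + 1)) % 9 := by
  have h1 := nr_form hπ
  rw [hn] at h1
  have h2 : l = 3 * nn π + 1 := by exact_mod_cast h1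
  rw [cs_w hπ, ZMod.val_natCast, h2]
  have h3 : 3 * nn π + 1 = 9 * (nn π / 3) + (3 * (nn π % 3) + 1) := by omega
  rw [h3, mul_add, ← mul_assoc, mul_comm a 9, mul_assoc, Nat.mul_add_mod]

include hD in
theorem allQ_iff {π : Ei} (hπ : Pq π) (hP : π ∉ PE D) {l : ℕ} (hl : l.Prime) (hn : nr π = l) :
    AllQ D l ↔ okQ D (cs π w) := by
  unfold AllQ okQ
  refine forall_congr' fun i => ?_
  rw [mod_nine hπ hn]
  exact ⟨fun h => h.2, fun h => ⟨not_dvd_of D hD hπ hP hl hn i, h⟩⟩

include hD in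
theorem goodQ_iff {π : Ei} (hπ : Pq π) (hP : π ∉ PE D) {l : ℕ} (hl : l.Prime) (hn : nr π = l)
    (hl1 : l % 3 = 1) :
    GoodQ D l ↔ okQ D (cs π w) ∧ ∀ i, NSg (D i)
      (AX (ex (PE D) fun q : PE D => cs π q)) (BX (ex (PE D) fun q : PE D => cs π q)) := by
  rw [← allQ_iff D hD hπ hP hl hn]
  unfold GoodQ AllQ
  rw [← forall_and]
  refine forall_congr' fun i => ?_
  have hnd := not_dvd_of D hD hπ hP hl hn i
  have hex : ∀ q ∈ PE D, ex (PE D) (fun q : PE D => cs π q) q = cs π q := by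
    intro q hq
    unfold ex
    rw [dif_pos hq]
  have ha : ∀ p ∈ (D i).primeFactors, p % 3 = 1 →
      aa π p = AX (ex (PE D) fun q : PE D => cs π q) p := by
    intro p hp h1
    unfold aa AX
    rw [hex _ (pp_mem D (mem_RR D hp) h1), hex _ (star_mem D (mem_RR D hp) h1)]
  have hb : ∀ p ∈ (D i).primeFactors, bb π p = BX (ex (PE D) fun q : PE D => cs π q) p := by
    intro p hp
    unfold bb BX
    by_cases h1 : p % 3 = 1
    · rw [if_pos h1, if_pos h1, hex _ (pp_mem D (mem_RR D hp) h1),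
        hex _ (star_mem D (mem_RR D hp) h1)]
    · rw [if_neg h1, if_neg h1, hex _ (neg_mem' D (mem_RR D hp) h1)]
  have hc := crit (hD i) hl hl1 hnd hπ hn
  have hns : NSg (D i) (aa π) (bb π) ↔ NSg (D i)
      (AX (ex (PE D) fun q : PE D => cs π q)) (BX (ex (PE D) fun q : PE D => cs π q)) :=
    ⟨fun h => h.congr ha hb, fun h => h.congr (fun p hp h1 => (ha p hp h1).symm)
      fun p hp => (hb p hp).symm⟩
  rw [← hns, ← hc]
  constructor
  · rintro ⟨a, b, c, d⟩
    exact ⟨⟨a, b, c⟩, d⟩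
  · rintro ⟨⟨a, b, c⟩, d⟩
    exact ⟨a, b, c, d⟩

include hD in
/-- **The density.** -/
theorem main_Q :
    Tendsto (fun X : ℕ => (CN (AllQ D) X : ℝ) / (CN (fun _ => True) X : ℝ)) atTop
      (𝓝 ((Nat.card {e // okQ D e} : ℝ) / 3)) ∧
    (0 < Nat.card {e // okQ D e} →
      Tendsto (fun X : ℕ => (CN (GoodQ D) X : ℝ) / (CN (AllQ D) X : ℝ)) atTop (𝓝 (cQ D))) ∧
    ((∀ p, p % 3 = 1 → (Finset.univ.filter fun i => p ∈ (D i).primeFactors).card ≤ 2) →
      0 < cQ D) := by
  classical
  have hP := PE_pq D hD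
  obtain ⟨L, hL, hN, hG, z, hz, s, hs⟩ := exists_field (insert w (PE D))
  have hzint : IsIntegral ℤ z := by
    refine ⟨Polynomial.X ^ 2 + Polynomial.X + 1, ?_, ?_⟩
    · monicity!
    · simp
      linear_combination hz
  obtain ⟨Z, hZz⟩ : ∃ Z : 𝓞 L, algebraMap (𝓞 L) L Z = z := ⟨⟨z, hzint⟩, rfl⟩
  have hinj : Function.Injective (algebraMap (𝓞 L) L) := RingOfIntegers.coe_injective
  have hZ : Z * Z = -1 - Z := by
    apply hinj
    rw [map_mul, map_sub, map_neg, map_one, hZz, hz]
  have hhom : ∀ x : Ei, algebraMap (𝓞 L) L (hom Z hZ x) = hom z hz x := by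
    intro x
    rw [hom_apply, hom_apply, map_add, map_mul, map_intCast, map_intCast, hZz]
  have hsint : ∀ q : Ei, ∃ t : 𝓞 L, q ∈ insert w (PE D) → t ^ 3 = hom Z hZ q := by
    intro q
    by_cases hq : q ∈ insert w (PE D)
    · have h1 : IsIntegral ℤ (s q) := by
        have h2 : IsIntegral ℤ (s q ^ 3) := by
          rw [hs q hq, ← hhom]
          exact RingOfIntegers.isIntegral_coe _
        exact IsIntegral.of_pow (by norm_num) h2
      obtain ⟨t, ht⟩ : ∃ t : 𝓞 L, algebraMap (𝓞 L) L t = s q := ⟨⟨s q, h1⟩, rfl⟩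
      refine ⟨t, fun _ => hinj ?_⟩
      rw [map_pow, hhom, ht]
      exact hs q hq
    · exact ⟨0, fun h => absurd h hq⟩
  choose t ht using hsint
  let E : Dat L (PE D) :=
    { Z := Z
      hZ := hZ
      s := t
      hw := ht w (Finset.mem_insert_self _ _)
      hs := fun q hq => ht q (Finset.mem_insert_of_mem hq) }
  set k : ℝ := 2 * (Nat.card (HH E.Z) : ℝ) / (Nat.card Gal(L/ℚ) : ℝ) with hk
  have hkpos : 0 < k := by
    have h1 := Nat.card_pos (α := HH E.Z)
    have h2 := Nat.card_pos (α := Gal(L/ℚ))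
    rw [hk]
    positivity
  -- the transfer
  have trans : ∀ (Q : (PE D → ZMod 3) × ZMod 3 → Prop) (T : ℕ → Prop),
      (∀ π, Pq π → π ∉ PE D → ∀ l : ℕ, l.Prime → nr π = l → l % 3 = 1 →
        (T l ↔ Q (fun q : PE D => cs π q, cs π w))) →
      Tendsto (fun X : ℕ => (CN T X : ℝ) / (Nat.primeCounting X : ℝ)) atTop
        (𝓝 (k * ((Nat.card {x : (PE D → ZMod 3) × ZMod 3 // Q x} : ℝ) / 3 ^ ((PE D).card + 1)) /
          2)) := by
    intro Q T hT
    set T' : Ei → Prop := fun π => if (nr π).natAbs.Prime then T (nr π).natAbs else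
      Q (fun q : PE D => cs π q, cs π w) with hT'
    have h1 : ∀ π, Pq π → ∀ l : ℕ, l.Prime → nr π = l → (T' π ↔ T l) := by
      intro π _ l hl hn
      have e : (nr π).natAbs = l := by rw [hn]; exact Int.natAbs_natCast l
      simp only [hT', e, if_pos hl]
    have h2 : ∀ π, Pq π → π ∉ PE D → (T' π ↔ Q (fun q : PE D => cs π q, cs π w)) := by
      intro π hπ hπP
      by_cases hpr : (nr π).natAbs.Prime
      · have hn : nr π = ((nr π).natAbs : ℕ) := (Int.natAbs_of_nonneg (nr_nonneg π)).symm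
        have hl1 : (nr π).natAbs % 3 = 1 := mod_three hn hpr (by
          intro h3
          apply hπ.norm
          refine ⟨star π, ?_⟩
          rw [mul_star, hn, h3]
          rfl)
        rw [← hT π hπ hπP _ hpr hn hl1]
        simp only [hT', if_pos hpr]
      · simp only [hT', if_neg hpr]
    exact CN_tendsto h1 (E.dens hP Q T' h2)
  have d1 := trans (fun _ => True) (fun _ => True) (fun π _ _ _ _ _ _ => Iff.rfl)
  have d2 := trans (fun x => okQ D x.2 ∧ True) (AllQ D) (fun π h1 h2 l h3 h4 _ => by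
    rw [allQ_iff D hD h1 h2 h3 h4]; simp)
  have d3 := trans (fun x => okQ D x.2 ∧ ∀ i, NSg (D i) (AX (ex (PE D) x.1)) (BX (ex (PE D) x.1)))
    (GoodQ D) (fun π h1 h2 l h3 h4 h5 => goodQ_iff D hD h1 h2 h3 h4 h5)
  have c0 : Nat.card (PE D → ZMod 3) = 3 ^ (PE D).card := by
    rw [Nat.card_fun]; simp
  have c1 : Nat.card {x : (PE D → ZMod 3) × ZMod 3 // True} = 3 ^ ((PE D).card + 1) := by
    rw [Nat.card_congr (Equiv.subtypeUnivEquiv fun _ => trivial), Nat.card_prod, c0]
    simp [pow_succ]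
  have c2 : Nat.card {x : (PE D → ZMod 3) × ZMod 3 // okQ D x.2 ∧ True} =
      Nat.card {e // okQ D e} * 3 ^ (PE D).card := by
    rw [card_split _ _ (fun _ => True) (okQ D), Nat.card_congr
      (Equiv.subtypeUnivEquiv (α := PE D → ZMod 3) fun _ => trivial), c0]
  have c3 := card_split (PE D → ZMod 3) (ZMod 3)
    (fun u => ∀ i, NSg (D i) (AX (ex (PE D) u)) (BX (ex (PE D) u))) (okQ D)
  have c4 := card_good D (fun i => NSg (D i)) (fun i a b a' b' ha hb h => h.congr ha hb)
  rw [c4] at c3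
  rw [c1] at d1
  rw [c2] at d2
  rw [c3] at d3
  have hcP := card_PE D
  have h3p : (3 : ℝ) ^ (PE D).card ≠ 0 := by positivity
  have hpc : ∀ᶠ X : ℕ in atTop, (Nat.primeCounting X : ℝ) ≠ 0 := by
    filter_upwards [eventually_ge_atTop 2] with X hX
    have : Nat.primeCounting X ≠ 0 := by
      rw [Ne, Nat.primeCounting_eq_zero_iff]
      omega
    exact_mod_cast this
  have hdiv : ∀ {A B : ℕ → ℕ} {a b : ℝ}, b ≠ 0 →
      Tendsto (fun X : ℕ => (A X : ℝ) / (Nat.primeCounting X : ℝ)) atTop (𝓝 a) →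
      Tendsto (fun X : ℕ => (B X : ℝ) / (Nat.primeCounting X : ℝ)) atTop (𝓝 b) →
      Tendsto (fun X : ℕ => (A X : ℝ) / (B X : ℝ)) atTop (𝓝 (a / b)) := by
    intro A B a b hb hA hB
    refine (hA.div hB hb).congr' ?_
    filter_upwards [hpc] with X hX
    exact div_div_div_cancel_right₀ hX _ _
  refine ⟨?_, ?_, ?_⟩
  · have hb : k * (((3 ^ ((PE D).card + 1) : ℕ) : ℝ) / 3 ^ ((PE D).card + 1)) / 2 ≠ 0 := by
      push_cast
      positivity
    have := hdiv hb d2 d1
    convert this using 2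
    push_cast
    field_simp
    ring
  · intro hpos
    have hpos' : (0 : ℝ) < Nat.card {e // okQ D e} := by exact_mod_cast hpos
    have hb : k * (((Nat.card {e // okQ D e} * 3 ^ (PE D).card : ℕ) : ℝ) /
        3 ^ ((PE D).card + 1)) / 2 ≠ 0 := by
      push_cast
      positivity
    have := hdiv hb d3 d2
    convert this using 2
    unfold cQ
    rw [← hcP]
    push_cast
    field_simp
  · intro hcard
    -- the positivity
    set S : Fin n → Finset ℕ := fun i => (D i).primeFactors.filter fun p => p % 3 = 1 with hS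
    have hq : ∀ i, ∃ q ∈ (D i).primeFactors, q % 3 = 2 ∧
        (D i).primeFactors = insert q (S i) := by
      intro i
      obtain ⟨-, q, hq, hq2, hqD, hall⟩ := hD i
      have h0 : D i ≠ 0 := (hD i).ne_zero
      refine ⟨q, Nat.mem_primeFactors.2 ⟨hq, hqD, h0⟩, hq2, ?_⟩
      ext p
      rw [Finset.mem_insert, hS, Finset.mem_filter]
      constructor
      · intro hp
        by_cases hpq : p = q
        · exact Or.inl hpq
        · exact Or.inr ⟨hp, hall p (Nat.prime_of_mem_primeFactors hp)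
            (Nat.dvd_of_mem_primeFactors hp) hpq⟩
      · rintro (rfl | h)
        · exact Nat.mem_primeFactors.2 ⟨hq, hqD, h0⟩
        · exact h.1
    choose q hq1 hq2 hq3 using hq
    obtain ⟨u, hu⟩ := family (fun i p r => mu (D i) r * lam p r) (Finset.univ : Finset (Fin n)) S
      (fun i p => mu (D i) (q i) * lam p (q i)) (fun p => by
        by_cases hp1 : p % 3 = 1
        · refine le_trans (Finset.card_le_card ?_) (hcard p hp1)
          intro i hi
          rw [Finset.mem_filter] at hi ⊢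
          exact ⟨hi.1, (Finset.mem_filter.1 hi.2).1⟩
        · have : (Finset.univ.filter fun i => p ∈ S i) = ∅ := by
            rw [Finset.filter_eq_empty_iff]
            intro i _ hi
            exact hp1 (Finset.mem_filter.1 hi).2
          rw [this]
          simp)
    have hgood : ∀ i, NSg (D i) u (fun r => if r % 3 = 2 then 1 else 0) := by
      intro i g h1 h2
      have hqn : q i ∉ S i := fun h => by
        have := (Finset.mem_filter.1 h).2
        have := hq2 i
        omega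
      have h2 : ∑ r ∈ (D i).primeFactors, mu (D i) r * (if r % 3 = 2 then (1 : ZMod 3) else 0) * g r
          = 0 := h2
      rw [hq3 i, Finset.sum_insert hqn, if_pos (hq2 i), Finset.sum_eq_zero, add_zero, mul_one] at h2
      · have hgq : g (q i) = 0 := by
          rcases mul_eq_zero.1 h2 with h | h
          · exact absurd h ((hD i).mu_ne _ (hq1 i))
          · exact h
        have h3 : ∀ p ∈ S i, g p = 0 := by
          refine hu i (Finset.mem_univ _) g fun p hp => ?_
          have hpm := (Finset.mem_filter.1 hp)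
          have h4 := h1 p hpm.1 hpm.2
          rw [hq3 i, Finset.sum_insert hqn, hgq] at h4
          linear_combination h4
        intro p hp
        rw [hq3 i] at hp
        rcases Finset.mem_insert.1 hp with rfl | hp
        · exact hgq
        · exact h3 p hp
      · intro r hr
        have := (Finset.mem_filter.1 hr).2
        rw [if_neg (by omega), mul_zero, zero_mul]
    unfold cQ
    refine div_pos ?_ (by positivity)
    have hne : Nonempty {y : (R1 D → ZMod 3) × (RR D → ZMod 3) //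
        ∀ i, NSg (D i) (exN (R1 D) y.1) (exN (RR D) y.2)} := by
      refine ⟨⟨(fun p => u p, fun r => if (r : ℕ) % 3 = 2 then 1 else 0), fun i =>
        (hgood i).congr (fun p hp h1 => ?_) (fun p hp => ?_)⟩⟩
      · have hm : p ∈ R1 D := Finset.mem_filter.2 ⟨mem_RR D hp, h1⟩
        unfold exN
        rw [dif_pos hm]
      · unfold exN
        rw [dif_pos (mem_RR D hp)]
    have := Nat.card_pos (α := {y : (R1 D → ZMod 3) × (RR D → ZMod 3) //
        ∀ i, NSg (D i) (exN (R1 D) y.1) (exN (RR D) y.2)})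
    exact_mod_cast this

end

end Q283.TQ
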