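import Pool.Agent.Q283.TQ.Comb
import Pool.Agent.Y333.CX.LAM

/-!
# The linear system of `D ℓ` in terms of the one of `D`
-/

set_option autoImplicit false

open scoped Classical

namespace Q283.TQ

open Finset Pool.Agent.Y703.CX
open Pool.Agent.Y703.CT (Cls NoSplit Base)

/-- the system of `D`, perturbed by `a` on the diagonal and bordered by `b`, has only the zero
solution -/
def NSg (D : ℕ) (a b : ℕ → ZMod 3) : Prop :=
  ∀ g : ℕ → ZMod 3,
    (∀ p ∈ D.primeFactors, p % 3 = 1 →
      ∑ r ∈ D.primeFactors, mu D r * lam p r * (g r - g p) = a p * g p) →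
    ∑ r ∈ D.primeFactors, mu D r * b r * g r = 0 →
    ∀ p ∈ D.primeFactors, g p = 0

theorem NSg.neg {D : ℕ} {a b : ℕ → ZMod 3} (h : NSg D a b) : NSg D a fun r => - b r := by
  intro g h1 h2
  refine h g h1 ?_
  have : ∑ r ∈ D.primeFactors, mu D r * -b r * g r = - ∑ r ∈ D.primeFactors, mu D r * b r * g r := by
    rw [← Finset.sum_neg_distrib]
    exact Finset.sum_congr rfl fun _ _ => by ring
  rw [this] at h2
  exact neg_eq_zero.1 h2

theorem NSg.congr {D : ℕ} {a b a' b' : ℕ → ZMod 3} (h : NSg D a b)
    (ha : ∀ p ∈ D.primeFactors, p % 3 = 1 → a p = a' p) (hb : ∀ p ∈ D.primeFactors, b p = b' p) :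
    NSg D a' b' := by
  intro g h1 h2
  refine h g (fun p hp hp1 => ?_) ?_
  · rw [ha p hp hp1]
    exact h1 p hp hp1
  · rw [← h2]
    exact Finset.sum_congr rfl fun r hr => by rw [hb r hr]

theorem not_mem_pf {D l : ℕ} (hlD : ¬ l ∣ D) : l ∉ D.primeFactors := fun h =>
  hlD (Nat.dvd_of_mem_primeFactors h)

theorem pf_mul {D l : ℕ} (hD : D ≠ 0) (hl : l.Prime) :
    (D * l).primeFactors = insert l D.primeFactors := by
  rw [Nat.primeFactors_mul hD hl.ne_zero, hl.primeFactors, Finset.union_comm]
  rfl

theorem mu_mul {D l r : ℕ} (hD : D ≠ 0) (hl : l.Prime) (hr : r ≠ l) : mu (D * l) r = mu D r := by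
  unfold mu
  rw [Nat.factorization_mul hD hl.ne_zero, Finsupp.add_apply, hl.factorization,
    Finsupp.single_eq_of_ne hr, add_zero]

theorem mu_mul_self {D l : ℕ} (hD : D ≠ 0) (hl : l.Prime) (hlD : ¬ l ∣ D) : mu (D * l) l = 1 := by
  unfold mu
  rw [Nat.factorization_mul hD hl.ne_zero, Finsupp.add_apply, hl.factorization,
    Finsupp.single_eq_same, Nat.factorization_eq_zero_of_not_dvd hlD, zero_add, Nat.cast_one]

theorem ker_mul {D l : ℕ} (hD : D ≠ 0) (hl : l.Prime)
    (hl1 : l % 3 = 1) (hlD : ¬ l ∣ D) :
    Ker (D * l) ↔ NSg D (fun p => lam p l) (fun r => lam l r) := by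
  have hnm := not_mem_pf hlD
  have hsum : ∀ F : ℕ → ZMod 3, ∑ r ∈ D.primeFactors, mu (D * l) r * F r =
      ∑ r ∈ D.primeFactors, mu D r * F r := fun F => Finset.sum_congr rfl fun r hr => by
    rw [mu_mul hD hl (fun h => hnm (h ▸ hr))]
  constructor
  · intro hK g h1 h2 p hp
    set c : ℕ → ZMod 3 := fun r => if r = l then 0 else g r with hc
    have hcl : c l = 0 := by simp [hc]
    have hcr : ∀ r ∈ D.primeFactors, c r = g r := by
      intro r hr
      have : r ≠ l := fun h => hnm (h ▸ hr)
      simp [hc, this]
    have h3 := hK c (by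
      intro q hq hq1
      rw [pf_mul hD hl] at hq ⊢
      rw [Finset.sum_insert hnm, mu_mul_self hD hl hlD]
      rcases Finset.mem_insert.1 hq with rfl | hq
      · rw [sub_self, mul_zero, zero_add]
        have e : ∑ r ∈ D.primeFactors, mu (D * q) r * lam q r * (c r - c q) =
            ∑ r ∈ D.primeFactors, mu D r * lam q r * g r := by
          have := hsum fun r => lam q r * (c r - c q)
          simp only [← mul_assoc] at this
          rw [this]
          refine Finset.sum_congr rfl fun r hr => ?_
          rw [hcl, hcr r hr, sub_zero]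
        rw [e]
        exact h2
      · have e : ∑ r ∈ D.primeFactors, mu (D * l) r * lam q r * (c r - c q) =
            ∑ r ∈ D.primeFactors, mu D r * lam q r * (g r - g q) := by
          have := hsum fun r => lam q r * (c r - c q)
          simp only [← mul_assoc] at this
          rw [this]
          refine Finset.sum_congr rfl fun r hr => ?_
          rw [hcr q hq, hcr r hr]
        rw [e, h1 q hq hq1, hcl, hcr q hq]
        ring)
    have h4 := h3 p (by rw [pf_mul hD hl]; exact Finset.mem_insert_of_mem hp) l
      (by rw [pf_mul hD hl]; exact Finset.mem_insert_self _ _)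
    rw [hcl, hcr p hp] at h4
    exact h4
  · intro hN c hc
    have h1 : ∀ p ∈ D.primeFactors, c p - c l = 0 := by
      refine hN (fun r => c r - c l) (fun p hp hp1 => ?_) ?_
      · have h2 := hc p (by rw [pf_mul hD hl]; exact Finset.mem_insert_of_mem hp) hp1
        rw [pf_mul hD hl, Finset.sum_insert hnm, mu_mul_self hD hl hlD] at h2
        have e : ∑ r ∈ D.primeFactors, mu (D * l) r * lam p r * (c r - c p) =
            ∑ r ∈ D.primeFactors, mu D r * lam p r * (c r - c l - (c p - c l)) := by
          have := hsum fun r => lam p r * (c r - c p)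
          simp only [← mul_assoc] at this
          rw [this]
          refine Finset.sum_congr rfl fun r _ => ?_
          ring
        rw [e] at h2
        show ∑ r ∈ D.primeFactors, mu D r * lam p r * (c r - c l - (c p - c l)) =
          lam p l * (c p - c l)
        linear_combination h2
      · have h2 := hc l (by rw [pf_mul hD hl]; exact Finset.mem_insert_self _ _) hl1
        rw [pf_mul hD hl, Finset.sum_insert hnm, sub_self, mul_zero, zero_add] at h2
        rw [← h2]
        have := hsum fun r => lam l r * (c r - c l)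
        simp only [← mul_assoc] at this
        exact this.symm
    intro p hp q hq
    rw [pf_mul hD hl] at hp hq
    have h5 : ∀ r ∈ insert l D.primeFactors, c r = c l := by
      intro r hr
      rcases Finset.mem_insert.1 hr with rfl | hr
      · rfl
      · exact sub_eq_zero.1 (h1 r hr)
    rw [h5 p hp, h5 q hq]

end Q283.TQ
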