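import Pool.Agent.Q283.TQ.Mat

/-!
# The symbols of a prime `ℓ` in terms of a primary prime of norm `ℓ`
-/

set_option autoImplicit false

open scoped Classical

namespace Q283.TQ

open Finset Pool.Agent.Y703.CX
open Pool.Agent.Y703.CT (Cls NoSplit Base)
open Pool.Agent.Y692.QS
open Pool.Agent.Y715.T.Rec (cs)
open Pool.Agent.Y715.T.RecG (Pq cs_mul cs_congr cs_zero_iff cs_neg)
open Pool.Agent.Y699.E (exists_PP rec_all eq_of_dvd)
open Pool.Agent.Y405.CT (pq_star cs_starG below nat_int)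
open Pool.Agent.Y333.CX (pp_spec dvd_int dvd_nat not_dvd_pq t_LAM)

/-- the symbols of the primes of `D` at `ℓ`, on the diagonal -/
noncomputable def aa (π : Ei) (p : ℕ) : ZMod 3 := cs π (pp p) - cs π (star (pp p))

/-- the symbols at `ℓ` of the primes of `D` -/
noncomputable def bb (π : Ei) (r : ℕ) : ZMod 3 :=
  if r % 3 = 1 then cs π (pp r) + cs π (star (pp r)) else cs π (-(r : Ei))

theorem pq_neg {q : ℕ} (hq : q.Prime) (h2 : q % 3 = 2) : Pq (-(q : Ei)) :=
  (t_LAM.rec2 7 q (by norm_num) (by norm_num) hq h2).1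

section
variable {π : Ei} {l : ℕ} (hπ : Pq π) (hn : nr π = l) (hl : l.Prime)

include hn in
theorem mul_star_eq : (l : Ei) = π * star π := by
  rw [mul_star, hn, Int.cast_natCast]

include hπ hn hl in
/-- the two primary primes of norm `ℓ` -/
theorem eq_or_star {ρ : Ei} (hρ : Pq ρ) (hm : nr ρ = l) : ρ = π ∨ ρ = star π := by
  have h1 : ρ ∣ (l : Ei) := by
    rw [mul_star_eq (π := ρ) hm]
    exact dvd_mul_right _ _
  rw [mul_star_eq hn] at h1
  rcases hρ.prime.dvd_or_dvd h1 with h2 | h2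
  · exact Or.inl (eq_of_dvd hρ hπ h2)
  · exact Or.inr (eq_of_dvd hρ (pq_star hπ) h2)

include hπ hn hl in
theorem lam_aa {p : ℕ} (hp : p.Prime) (hp1 : p % 3 = 1) (hpl : p ≠ l) : lam p l = aa π p := by
  obtain ⟨hρ, hm⟩ := pp_spec hp hp1
  have hπ' := pq_star hπ
  have hn' : nr (star π) = l := by rw [nr_star, hn]
  have hne : (p : ℤ) ≠ l := by exact_mod_cast hpl
  have d1 : ¬ pp p ∣ π := not_dvd_pq hρ hπ (by rw [hm, hn]; exact hne)
  have d2 : ¬ pp p ∣ star π := not_dvd_pq hρ hπ' (by rw [hm, hn']; exact hne)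
  have d3 : ¬ π ∣ star (pp p) := not_dvd_pq hπ (pq_star hρ) (by
    rw [hn, nr_star, hm]; exact hne.symm)
  unfold lam aa
  rw [mul_star_eq hn, cs_mul hρ.prime hρ.norm d1 d2]
  have r1 : cs (pp p) π = cs π (pp p) := rec_all _ _ hπ hρ d1
  have r2 : cs (pp p) (star π) = cs (star π) (pp p) := rec_all _ _ hπ' hρ d2
  have r3 : cs (star π) (pp p) = - cs π (star (pp p)) := by
    have h := cs_starG hπ d3
    rw [star_star] at h
    exact h
  rw [r1, r2, r3, sub_eq_add_neg]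

include hπ hn hl in
theorem not_dvd_cast {r : ℕ} (hr : ¬ l ∣ r) : ¬ π ∣ (r : Ei) := by
  intro h
  have h1 : nr π ∣ nr (r : Ei) := by
    obtain ⟨c, hc⟩ := h
    rw [hc, nr_mul]
    exact dvd_mul_right _ _
  rw [hn, nr_nat] at h1
  have h2 : l ∣ r ^ 2 := by exact_mod_cast h1
  exact hr (hl.dvd_of_dvd_pow h2)

include hπ hn hl in
theorem cs_bb {r : ℕ} (hr : r.Prime) (h3 : r % 3 = 1 ∨ r % 3 = 2) (hrl : r ≠ l) :
    cs π (r : Ei) = bb π r := by
  have hnd : ¬ π ∣ (r : Ei) := not_dvd_cast hπ hn hl fun h =>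
    hrl ((Nat.prime_dvd_prime_iff_eq hl hr).1 h).symm
  unfold bb
  rcases h3 with h1 | h2
  · rw [if_pos h1]
    obtain ⟨hρ, hm⟩ := pp_spec hr h1
    have hne : (l : ℤ) ≠ r := by exact_mod_cast hrl.symm
    have d1 : ¬ π ∣ pp r := not_dvd_pq hπ hρ (by rw [hm, hn]; exact hne)
    have d2 : ¬ π ∣ star (pp r) := not_dvd_pq hπ (pq_star hρ) (by
      rw [hn, nr_star, hm]; exact hne)
    rw [mul_star_eq hm, cs_mul hπ.prime hπ.norm d1 d2]
  · rw [if_neg (by omega), cs_neg hπ.prime hπ.norm hnd]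

include hπ hn hl in
theorem lam_bb (hl1 : l % 3 = 1) :
    (∀ r : ℕ, r.Prime → (r % 3 = 1 ∨ r % 3 = 2) → r ≠ l → lam l r = bb π r) ∨
    (∀ r : ℕ, r.Prime → (r % 3 = 1 ∨ r % 3 = 2) → r ≠ l → lam l r = - bb π r) := by
  obtain ⟨hρ, hm⟩ := pp_spec hl hl1
  rcases eq_or_star hπ hn hl hρ hm with h | h
  · left
    intro r hr h3 hrl
    unfold lam
    rw [h, cs_bb hπ hn hl hr h3 hrl]
  · right
    intro r hr h3 hrl
    have hnd : ¬ π ∣ (r : Ei) := not_dvd_cast hπ hn hl fun h =>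
      hrl ((Nat.prime_dvd_prime_iff_eq hl hr).1 h).symm
    unfold lam
    rw [h, ← cs_bb hπ hn hl hr h3 hrl]
    have h4 := cs_starG hπ hnd
    have h5 : star (r : Ei) = (r : Ei) := star_natCast r
    rw [h5] at h4
    exact h4

end

theorem bs_mul {D l : ℕ} (hD : Bs D) (hl : l.Prime) (hl1 : l % 3 = 1) (hlD : ¬ l ∣ D) :
    Bs (D * l) := by
  obtain ⟨⟨h0, h3, hc⟩, q, hq, hq2, hqD, hall⟩ := hD
  refine ⟨⟨mul_ne_zero h0 hl.ne_zero, ?_, ?_⟩, q, hq, hq2, hqD.mul_right _, ?_⟩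
  · intro h
    rcases (Nat.Prime.dvd_mul Nat.prime_three).1 h with h | h
    · exact h3 h
    · have := (Nat.prime_dvd_prime_iff_eq Nat.prime_three hl).1 h
      omega
  · intro p hp h
    by_cases hpl : p = l
    · subst hpl
      have h1 : p ^ 2 * p ∣ D * p := by
        have e : p ^ 2 * p = p ^ 3 := by ring
        rw [e]
        exact h
      have h2 := Nat.dvd_of_mul_dvd_mul_right hp.pos h1
      exact hlD ((dvd_pow_self p two_ne_zero).trans h2)
    · have hcop : Nat.Coprime (p ^ 3) l := ((Nat.coprime_primes hp hl).2 hpl).pow_left 3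
      exact hc p hp (hcop.dvd_of_dvd_mul_right h)
  · intro p hp hpd hpq
    rcases hp.dvd_mul.1 hpd with h | h
    · exact hall p hp h hpq
    · rw [(Nat.prime_dvd_prime_iff_eq hp hl).1 h]
      exact hl1

theorem cls_iff {D : ℕ} (hD : Bs D) : Cls D ↔ D % 9 ≠ 1 ∧ D % 9 ≠ 8 :=
  ⟨fun h => ⟨h.2.1, h.2.2.1⟩, fun h => ⟨hD.1, h.1, h.2, hD.2⟩⟩

/-- the criterion in terms of a primary prime `π` of norm `ℓ` -/
theorem crit {D l : ℕ} (hD : Bs D) (hl : l.Prime) (hl1 : l % 3 = 1) (hlD : ¬ l ∣ D)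
    {π : Ei} (hπ : Pq π) (hn : nr π = l) : NoSplit (D * l) ↔ NSg D (aa π) (bb π) := by
  rw [nosplit_iff t_LAM (bs_mul hD hl hl1 hlD), ker_mul hD.ne_zero hl hl1 hlD]
  have hne : ∀ r ∈ D.primeFactors, r ≠ l := by
    rintro r hr rfl
    exact not_mem_pf hlD hr
  have hpr : ∀ r ∈ D.primeFactors, r.Prime := fun r hr => Nat.prime_of_mem_primeFactors hr
  have ha : ∀ p ∈ D.primeFactors, p % 3 = 1 → lam p l = aa π p := fun p hp hp1 =>
    lam_aa hπ hn hl (hpr p hp) hp1 (hne p hp)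
  rcases lam_bb hπ hn hl hl1 with h | h
  · have hb : ∀ r ∈ D.primeFactors, lam l r = bb π r := fun r hr =>
      h r (hpr r hr) (hD.case r hr) (hne r hr)
    exact ⟨fun hN => hN.congr ha hb, fun hN => hN.congr (fun p hp hp1 => (ha p hp hp1).symm)
      fun r hr => (hb r hr).symm⟩
  · have hb : ∀ r ∈ D.primeFactors, lam l r = - bb π r := fun r hr =>
      h r (hpr r hr) (hD.case r hr) (hne r hr)
    constructor
    · intro hN
      have h1 := hN.neg
      exact h1.congr ha fun r hr => by rw [hb r hr, neg_neg]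
    · intro hN
      exact hN.neg.congr (fun p hp hp1 => (ha p hp hp1).symm) fun r hr => (hb r hr).symm

end Q283.TQ
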